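import Mathlib

set_option autoImplicit false

/-!
Bases of group actions and the base size set of a finite group.
-/

namespace Pool.Agent.Helper36.BaseSize

/-- `B` is a base for the action of `G` on `S`: only the identity fixes every point of `B`. -/
def IsBase (G S : Type) [Group G] [MulAction G S] (B : Finset S) : Prop :=
  ∀ g : G, (∀ x ∈ B, g • x = x) → g = 1

/-- `n` is the base size of the action of `G` on `S`: the least cardinality of a base. -/
def IsBaseSize (G S : Type) [Group G] [MulAction G S] (n : ℕ) : Prop :=
  IsLeast {k : ℕ | ∃ B : Finset S, B.card = k ∧ IsBase G S B} n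

/-- The base size set of `G`: the set of base sizes of all faithful actions of `G` on finite
sets. -/
def baseSizeSet (G : Type) [Group G] : Set ℕ :=
  {n | ∃ (S : Type) (_ : Finite S) (_ : MulAction G S), FaithfulSMul G S ∧ IsBaseSize G S n}

end Pool.Agent.Helper36.BaseSize
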