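import Mathlib
import Pool.Agent.Helper36.BaseSize.Defs

set_option autoImplicit false

namespace Pool.Agent.Helper36.BaseSize

/-- The group `2^4 : 5` of order 80: a translation `b` of the integers modulo 5 and a function `v`
from the integers modulo 5 to the integers modulo 2 with sum zero. -/
@[ext] structure HH where
  /-- translation part -/
  b : ZMod 5
  /-- vector part -/
  v : ZMod 5 → ZMod 2
  hv : ∑ x, v x = 0

theorem sum_shift (b : ZMod 5) (v : ZMod 5 → ZMod 2) : ∑ x, v (x + b) = ∑ x, v x :=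
  Equiv.sum_comp (Equiv.addRight b) v

namespace HH

instance : Mul HH where
  mul g h := ⟨h.b + g.b, fun x => h.v x + g.v (x + h.b), by
    rw [Finset.sum_add_distrib, h.hv, sum_shift, g.hv, add_zero]⟩

instance : One HH where
  one := ⟨0, fun _ => 0, by simp⟩

instance : Inv HH where
  inv g := ⟨-g.b, fun x => -g.v (x + -g.b), by
    rw [Finset.sum_neg_distrib, sum_shift, g.hv, neg_zero]⟩

@[simp] theorem mul_b (g h : HH) : (g * h).b = h.b + g.b := rfl
@[simp] theorem mul_v (g h : HH) (x : ZMod 5) : (g * h).v x = h.v x + g.v (x + h.b) := rfl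
@[simp] theorem one_b : (1 : HH).b = 0 := rfl
@[simp] theorem one_v (x : ZMod 5) : (1 : HH).v x = 0 := rfl
@[simp] theorem inv_b (g : HH) : (g⁻¹).b = -g.b := rfl
@[simp] theorem inv_v (g : HH) (x : ZMod 5) : (g⁻¹).v x = -g.v (x + -g.b) := rfl

instance : Group HH := Group.ofLeftAxioms
  (by
    intro g h k
    apply HH.ext
    · simp [add_assoc]
    · funext x
      simp [add_assoc])
  (by
    intro g
    apply HH.ext
    · simp
    · funext x; simp)
  (by
    intro g
    apply HH.ext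
    · simp
    · funext x
      have h2 : ∀ a : ZMod 2, a + -a = 0 := by decide
      simp only [mul_v, inv_v, one_v]
      rw [add_neg_cancel_right]
      exact h2 _)

/-- The translation part as a homomorphism. -/
def tr : HH →* Multiplicative (ZMod 5) where
  toFun g := Multiplicative.ofAdd g.b
  map_one' := rfl
  map_mul' g h := by
    change Multiplicative.ofAdd (h.b + g.b) = Multiplicative.ofAdd (g.b + h.b)
    rw [add_comm]

/-- The normal subgroup of order 16. -/
def V : Subgroup HH := tr.ker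

instance : V.Normal := MonoidHom.normal_ker _

theorem mem_V {g : HH} : g ∈ V ↔ g.b = 0 := Iff.rfl

/-- The element of `V` with given vector. -/
def nn (v : ZMod 5 → ZMod 2) (hv : ∑ x, v x = 0) : HH := ⟨0, v, hv⟩

theorem card_vec : Nat.card {v : ZMod 5 → ZMod 2 // ∑ x, v x = 0} = 16 := by
  rw [Nat.card_eq_fintype_card, Fintype.card_subtype]
  decide +kernel

/-- `V` as a set of vectors. -/
def eV : V ≃ {v : ZMod 5 → ZMod 2 // ∑ x, v x = 0} where
  toFun g := ⟨g.1.v, g.1.hv⟩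
  invFun v := ⟨nn v.1 v.2, rfl⟩
  left_inv g := Subtype.ext (HH.ext (mem_V.mp g.2).symm rfl)
  right_inv _ := rfl

theorem card_V : Nat.card V = 16 := by
  rw [Nat.card_congr eV, card_vec]

instance : Finite HH := by
  have : Finite V := Nat.finite_of_card_ne_zero (by rw [card_V]; norm_num)
  have h2 : Finite (HH ⧸ V) :=
    Finite.of_equiv _ (QuotientGroup.quotientKerEquivRange tr).symm.toEquiv
  exact Finite.of_equiv _ (Subgroup.groupEquivQuotientProdSubgroup (s := V)).symm

theorem V_comm {g h : HH} (hg : g ∈ V) (hh : h ∈ V) : g * h = h * g := by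
  have h1 := mem_V.mp hg
  have h2 := mem_V.mp hh
  apply HH.ext
  · simp [h1, h2]
  · funext x
    simp [h1, h2, add_comm]

/-- The translation by `k`. -/
def tau (k : ZMod 5) : HH := ⟨k, fun _ => 0, by simp⟩

theorem conj_tau_v (k : ZMod 5) (g : HH) (x : ZMod 5) :
    (tau k * g * (tau k)⁻¹).v x = g.v (x - k) := by
  simp [tau, sub_eq_add_neg]

theorem conj_tau_mem {k : ZMod 5} {g : HH} (hg : g ∈ V) : tau k * g * (tau k)⁻¹ ∈ V :=
  (inferInstance : V.Normal).conj_mem g hg _

/-- Elements of `V` are determined by their vectors. -/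
theorem ext_V {g h : HH} (hg : g ∈ V) (hh : h ∈ V) (e : ∀ x, g.v x = h.v x) : g = h :=
  HH.ext ((mem_V.mp hg).trans (mem_V.mp hh).symm) (funext e)

/-! ### Finite checks on vectors -/

/-- Five coordinates of a vector. -/
theorem sum_five {v : ZMod 5 → ZMod 2} (hv : ∑ x, v x = 0) :
    v 0 + v 1 + v 2 + v 3 + v 4 = 0 := by
  rw [show (Finset.univ : Finset (ZMod 5)) = {0, 1, 2, 3, 4} by decide] at hv
  rw [Finset.sum_insert (by decide), Finset.sum_insert (by decide),
    Finset.sum_insert (by decide), Finset.sum_insert (by decide), Finset.sum_singleton] at hv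
  rw [← hv]
  ring

theorem five_cases : ∀ x : ZMod 5, x = 0 ∨ x = 1 ∨ x = 2 ∨ x = 3 ∨ x = 4 := by decide

theorem eq_of_five {v w : ZMod 5 → ZMod 2} (h0 : v 0 = w 0) (h1 : v 1 = w 1) (h2 : v 2 = w 2)
    (h3 : v 3 = w 3) (h4 : v 4 = w 4) (x : ZMod 5) : v x = w x := by
  rcases five_cases x with rfl | rfl | rfl | rfl | rfl
  · exact h0
  · exact h1
  · exact h2
  · exact h3
  · exact h4

/-- A vector of sum zero fixed by a nontrivial translation vanishes. -/
theorem eq_zero_of_fixed : ∀ v : ZMod 5 → ZMod 2, ∑ x, v x = 0 → ∀ k : ZMod 5, k ≠ 0 →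
    (∀ x, v (x - k) = v x) → ∀ x, v x = 0 := by
  decide +kernel

/-- The vector `(1,1,0,0,0)`. -/
def w0 : ZMod 5 → ZMod 2 := fun x => if x = 0 then 1 else if x = 1 then 1 else 0

theorem brute1 : ∀ a b c d e : ZMod 2, a + b + c + d + e = 0 →
    ¬ (a = 0 ∧ b = 0 ∧ c = 0 ∧ d = 0 ∧ e = 0) → ∃ p q r s : ZMod 2,
    (p * a + q * e + r * d + s * c = 1) ∧ (p * b + q * a + r * e + s * d = 1) ∧
    (p * c + q * b + r * a + s * e = 0) ∧ (p * d + q * c + r * b + s * a = 0) ∧
    (p * e + q * d + r * c + s * b = 0) := by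
  decide +kernel

theorem brute2 : ∀ a b c d e : ZMod 2, a + b + c + d + e = 0 →
    (a = a * w0 0 + (a + b) * w0 (0 - ((1 : ℕ) : ZMod 5)) +
      (a + b + c) * w0 (0 - ((2 : ℕ) : ZMod 5)) + (a + b + c + d) * w0 (0 - ((3 : ℕ) : ZMod 5))) ∧
    (b = a * w0 1 + (a + b) * w0 (1 - ((1 : ℕ) : ZMod 5)) +
      (a + b + c) * w0 (1 - ((2 : ℕ) : ZMod 5)) + (a + b + c + d) * w0 (1 - ((3 : ℕ) : ZMod 5))) ∧
    (c = a * w0 2 + (a + b) * w0 (2 - ((1 : ℕ) : ZMod 5)) +
      (a + b + c) * w0 (2 - ((2 : ℕ) : ZMod 5)) + (a + b + c + d) * w0 (2 - ((3 : ℕ) : ZMod 5))) ∧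
    (d = a * w0 3 + (a + b) * w0 (3 - ((1 : ℕ) : ZMod 5)) +
      (a + b + c) * w0 (3 - ((2 : ℕ) : ZMod 5)) + (a + b + c + d) * w0 (3 - ((3 : ℕ) : ZMod 5))) ∧
    (e = a * w0 4 + (a + b) * w0 (4 - ((1 : ℕ) : ZMod 5)) +
      (a + b + c) * w0 (4 - ((2 : ℕ) : ZMod 5)) + (a + b + c + d) * w0 (4 - ((3 : ℕ) : ZMod 5))) := by
  decide +kernel

/-- Independence of the first translates of a vector. -/
theorem brute3 : ∀ u : ZMod 5 → ZMod 2, ∑ x, u x = 0 → u ≠ 0 → ∀ w : ZMod 5 → ZMod 2,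
    (w = u ∨ w = (fun x => u (x - 1)) ∨ w = (fun x => u x + u (x - 1))) →
    ((fun x => w (x - 2)) ≠ 0 ∧ (fun x => w (x - 2)) ≠ u ∧
      (fun x => w (x - 2)) ≠ (fun x => u (x - 1)) ∧
      (fun x => w (x - 2)) ≠ (fun x => u x + u (x - 1))) := by
  decide +kernel

end HH

end Pool.Agent.Helper36.BaseSize
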