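import Mathlib
import Pool.Agent.Helper36.BaseSize.Group80

set_option autoImplicit false

namespace Pool.Agent.Helper36.BaseSize

open HH

namespace HH

theorem conj_v {g n : HH} (hn : n ∈ V) (x : ZMod 5) : (g * n * g⁻¹).v x = n.v (x - g.b) := by
  have h := mem_V.mp hn
  have h2 : ∀ a b : ZMod 2, -a + (b + a) = b := by decide
  simp only [mul_v, mul_b, inv_v, inv_b, h, add_zero, sub_eq_add_neg]
  exact h2 _ _

theorem mul_v_V {p q : HH} (hq : q ∈ V) (y : ZMod 5) : (p * q).v y = q.v y + p.v y := by
  rw [mul_v, mem_V.mp hq, add_zero]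

theorem ne_one_iff {g : HH} (hg : g ∈ V) : g ≠ 1 ↔ g.v ≠ 0 := by
  constructor
  · intro h h2
    exact h (ext_V hg V.one_mem (fun x => congrFun h2 x))
  · intro h h2
    apply h
    rw [h2]
    rfl

/-- A subgroup meeting `V` nontrivially and normalised by an element outside `V` contains `V`. -/
theorem V_le_of {U : Subgroup HH} {g : HH} (hg : g ∉ V) (h1 : ∃ u ∈ U, u ∈ V ∧ u ≠ 1)
    (h2 : ∀ u ∈ U, u ∈ V → g * u * g⁻¹ ∈ U) : V ≤ U := by
  let A : AddSubgroup (ZMod 5 → ZMod 2) :=
    { carrier := {v | ∃ g ∈ U, g ∈ V ∧ g.v = v}
      add_mem' := by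
        rintro v w ⟨g, hg1, hg2, rfl⟩ ⟨h, hh1, hh2, rfl⟩
        refine ⟨g * h, U.mul_mem hg1 hh1, V.mul_mem hg2 hh2, ?_⟩
        have h3 := mem_V.mp hh2
        funext x
        simp [h3, add_comm]
      zero_mem' := ⟨1, U.one_mem, V.one_mem, rfl⟩
      neg_mem' := by
        rintro v ⟨g, hg1, hg2, rfl⟩
        refine ⟨g⁻¹, U.inv_mem hg1, V.inv_mem hg2, ?_⟩
        have h3 := mem_V.mp hg2
        funext x
        simp [h3] }
  have hA : ∀ v, v ∈ A ↔ ∃ g ∈ U, g ∈ V ∧ g.v = v := fun v => Iff.rfl
  have hb : g.b ≠ 0 := hg
  have hshift0 : ∀ v ∈ A, (fun x => v (x - g.b)) ∈ A := by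
    intro v hv
    obtain ⟨u, hu1, hu2, rfl⟩ := (hA v).mp hv
    refine (hA _).mpr ⟨g * u * g⁻¹, h2 u hu1 hu2, ?_, ?_⟩
    · exact (inferInstance : V.Normal).conj_mem u hu2 g
    · funext x
      exact conj_v hu2 x
  have hshift1 : ∀ v ∈ A, ∀ j : ℕ, (fun x => v (x - j * g.b)) ∈ A := by
    intro v hv j
    induction j with
    | zero => simpa using hv
    | succ k ih =>
      have := hshift0 _ ih
      have h2 : (fun x : ZMod 5 => v (x - ((k + 1 : ℕ) : ZMod 5) * g.b)) =
          fun x => v (x - g.b - (k : ZMod 5) * g.b) := by
        funext x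
        congr 1
        push_cast
        ring
      rw [h2]
      exact this
  have hshift' : ∀ v ∈ A, ∀ k : ℕ, (fun x => v (x - k)) ∈ A := by
    intro v hv k
    have hex : ∀ b : ZMod 5, b ≠ 0 → ∀ k : ZMod 5, ∃ j : Fin 5, ((j.val : ℕ) : ZMod 5) * b = k := by
      decide
    obtain ⟨j, hj⟩ := hex g.b hb k
    have := hshift1 v hv j.val
    rw [hj] at this
    exact this
  have hsmul : ∀ v ∈ A, ∀ c : ZMod 2, (fun x => c * v x) ∈ A := by
    intro v hv c
    have h1 : (fun x => c * v x) = c.val • v := by
      funext x
      simp [nsmul_eq_mul]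
    rw [h1]
    exact A.nsmul_mem hv _
  have hw0 : w0 ∈ A := by
    obtain ⟨g, hg1, hg2, hg3⟩ := h1
    have hgA : g.v ∈ A := (hA _).mpr ⟨g, hg1, hg2, rfl⟩
    have hne : ¬ (g.v 0 = 0 ∧ g.v 1 = 0 ∧ g.v 2 = 0 ∧ g.v 3 = 0 ∧ g.v 4 = 0) := by
      rintro ⟨h0, h1, h2, h3, h4⟩
      apply (ne_one_iff hg2).mp hg3
      funext x
      exact eq_of_five (w := fun _ => 0) h0 h1 h2 h3 h4 x
    obtain ⟨p, q, r, s, e0, e1, e2, e3, e4⟩ := brute1 _ _ _ _ _ (sum_five g.hv) hne
    have h1 := hsmul _ hgA p
    have h2 := hsmul _ (hshift' _ hgA 1) q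
    have h3 := hsmul _ (hshift' _ hgA 2) r
    have h4 := hsmul _ (hshift' _ hgA 3) s
    have h5 := A.add_mem (A.add_mem (A.add_mem h1 h2) h3) h4
    convert h5 using 1
    funext x
    simp only [Pi.add_apply]
    rcases five_cases x with rfl | rfl | rfl | rfl | rfl
    · exact e0.symm
    · exact e1.symm
    · exact e2.symm
    · exact e3.symm
    · exact e4.symm
  intro h hh
  have hgA : h.v ∈ A := by
    have h1 := hsmul _ hw0 (h.v 0)
    have h2 := hsmul _ (hshift' _ hw0 1) (h.v 0 + h.v 1)
    have h3 := hsmul _ (hshift' _ hw0 2) (h.v 0 + h.v 1 + h.v 2)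
    have h4 := hsmul _ (hshift' _ hw0 3) (h.v 0 + h.v 1 + h.v 2 + h.v 3)
    have h5 := A.add_mem (A.add_mem (A.add_mem h1 h2) h3) h4
    convert h5 using 1
    funext x
    simp only [Pi.add_apply]
    obtain ⟨e0, e1, e2, e3, e4⟩ := brute2 _ _ _ _ _ (sum_five h.hv)
    rcases five_cases x with rfl | rfl | rfl | rfl | rfl
    · exact e0
    · exact e1
    · exact e2
    · exact e3
    · exact e4
  obtain ⟨h', hh1, hh2, hh3⟩ := (hA _).mp hgA
  have : h = h' := ext_V hh hh2 (fun x => (congrFun hh3 x).symm)
  rw [this]
  exact hh1

/-- A specific nontrivial element of `V`. -/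
def n0 : HH := nn w0 (by decide)

theorem n0_mem : n0 ∈ V := rfl

theorem n0_ne : n0 ≠ 1 := by
  rw [ne_one_iff n0_mem]
  intro h
  have := congrFun h 0
  revert this
  decide

/-- A small subgroup has a conjugate meeting it trivially. -/
theorem exists_conj_inf (K : Subgroup HH) (hK : Nat.card (K ⊓ V : Subgroup HH) ≤ 4) :
    ∃ g : HH, ∀ x ∈ K, g⁻¹ * x * g ∈ K → x = 1 := by
  by_cases hKV : K ≤ V
  · -- a subspace
    by_contra hno
    push Not at hno
    have hgen : ∀ k : ZMod 5, ∃ u : HH, u ∈ K ∧ u ≠ 1 ∧ tau k * u * (tau k)⁻¹ ∈ K := by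
      intro k
      obtain ⟨x, hx, hx2, hx1⟩ := hno (tau k)
      refine ⟨(tau k)⁻¹ * x * tau k, ?_, ?_, ?_⟩
      · simpa using hx2
      · intro h
        apply hx1
        have : x = tau k * ((tau k)⁻¹ * x * tau k) * (tau k)⁻¹ := by group
        rw [this, h]
        group
      · have : tau k * ((tau k)⁻¹ * x * tau k) * (tau k)⁻¹ = x := by group
        rw [this]
        exact hx
    obtain ⟨u, hu, hu1, hu2⟩ := hgen 1
    obtain ⟨w, hw, hw1, hw2⟩ := hgen 2
    -- five distinct elements
    have huV := hKV hu
    have hwV := hKV hw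
    have hvu : u.v ≠ 0 := (ne_one_iff huV).mp hu1
    have hvw : w.v ≠ 0 := (ne_one_iff hwV).mp hw1
    set t := tau 1 * u * (tau 1)⁻¹ with ht
    have htv : t.v = fun x => u.v (x - 1) := by
      funext x
      exact conj_tau_v 1 u x
    have htV := hKV hu2
    have hut : (u * t).v = fun x => u.v x + u.v (x - 1) := by
      funext x
      rw [mul_v, mem_V.mp htV, htv, add_zero, add_comm]
    have hutK : u * t ∈ K := K.mul_mem hu hu2
    have hkey : ∃ z ∈ K, z ≠ 1 ∧ z ≠ u ∧ z ≠ t ∧ z ≠ u * t := by
      by_cases hcase : w = u ∨ w = t ∨ w = u * t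
      · have h3 := brute3 u.v u.hv hvu w.v (by
          rcases hcase with h | h | h
          · exact Or.inl (by rw [h])
          · exact Or.inr (Or.inl (by rw [h, htv]))
          · exact Or.inr (Or.inr (by rw [h, hut])))
        have hz : (tau 2 * w * (tau 2)⁻¹).v = fun x => w.v (x - 2) := by
          funext x
          exact conj_tau_v 2 w x
        obtain ⟨a1, a2, a3, a4⟩ := h3
        refine ⟨tau 2 * w * (tau 2)⁻¹, hw2, ?_, ?_, ?_, ?_⟩
        · rw [ne_one_iff (hKV hw2), hz]
          exact a1
        · intro h
          apply a2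
          rw [← hz, h]
        · intro h
          apply a3
          rw [← hz, h, htv]
        · intro h
          apply a4
          rw [← hz, h, hut]
      · push Not at hcase
        exact ⟨w, hw, hw1, hcase.1, hcase.2.1, hcase.2.2⟩
    obtain ⟨z, hz, hz1, hz2, hz3, hz4⟩ := hkey
    have ht1 : t ≠ 1 := by
      intro h
      apply hu1
      have : u = (tau 1)⁻¹ * t * tau 1 := by rw [ht]; group
      rw [this, h]
      group
    have htu : t ≠ u := by
      intro h
      apply hvu
      funext x
      apply eq_zero_of_fixed u.v u.hv 1 (by decide)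
      intro x
      have := congrFun htv x
      rw [h] at this
      exact this.symm
    have hut1 : u * t ≠ 1 := by
      intro h
      apply htu
      apply ext_V htV huV
      intro x
      have h1 : (u * t).v x = 0 := by rw [h]; rfl
      rw [mul_v, mem_V.mp htV, add_zero] at h1
      have h2 : ∀ a b : ZMod 2, a + b = 0 → a = b := by decide
      exact h2 _ _ h1
    have hutu : u * t ≠ u := by
      intro h
      apply ht1
      exact mul_eq_left.mp h
    have hutt : u * t ≠ t := by
      intro h
      apply hu1
      exact mul_eq_right.mp h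
    classical
    have hcard : (({1, u, t, u * t, z} : Finset HH)).card = 5 := by
      rw [Finset.card_insert_of_notMem, Finset.card_insert_of_notMem,
        Finset.card_insert_of_notMem, Finset.card_insert_of_notMem, Finset.card_singleton]
      · simp only [Finset.mem_singleton]
        exact hz4.symm
      · simp only [Finset.mem_insert, Finset.mem_singleton]
        push Not
        exact ⟨hutt.symm, hz3.symm⟩
      · simp only [Finset.mem_insert, Finset.mem_singleton]
        push Not
        exact ⟨htu.symm, hutu.symm, hz2.symm⟩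
      · simp only [Finset.mem_insert, Finset.mem_singleton]
        push Not
        exact ⟨hu1.symm, ht1.symm, hut1.symm, hz1.symm⟩
    have hsub : (({1, u, t, u * t, z} : Finset HH) : Set HH) ⊆ (K ⊓ V : Subgroup HH) := by
      intro y hy
      simp only [Finset.coe_insert, Finset.coe_singleton, Set.mem_insert_iff,
        Set.mem_singleton_iff] at hy
      have hyK : y ∈ K := by
        rcases hy with rfl | rfl | rfl | rfl | rfl
        · exact K.one_mem
        · exact hu
        · exact hu2
        · exact hutK
        · exact hz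
      exact ⟨hyK, hKV hyK⟩
    have h5 : 5 ≤ Nat.card (K ⊓ V : Subgroup HH) := by
      have h6 := Set.ncard_le_ncard hsub (Set.toFinite _)
      rw [Set.ncard_coe_finset, hcard] at h6
      exact h6
    omega
  · -- an element outside `V`
    have hex : ∃ g ∈ K, g ∉ V := by
      by_contra h
      push Not at h
      exact hKV h
    obtain ⟨g, hg, hgV⟩ := hex
    have htriv : ∀ x ∈ K, x ∈ V → x = 1 := by
      by_contra hno
      push Not at hno
      obtain ⟨u, hu, huV, hu1⟩ := hno
      have hVK : V ≤ K := by
        refine V_le_of hgV ⟨u, hu, huV, hu1⟩ ?_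
        intro u hu _
        exact K.mul_mem (K.mul_mem hg hu) (K.inv_mem hg)
      have : (K ⊓ V : Subgroup HH) = V := inf_eq_right.mpr hVK
      rw [this, card_V] at hK
      omega
    refine ⟨n0, fun x hx hx2 => ?_⟩
    by_contra hx1
    have hxV : x ∉ V := fun h => hx1 (htriv x hx h)
    have h1 : n0⁻¹ * x * n0 = x := by
      have h2 : x⁻¹ * (n0⁻¹ * x * n0) ∈ K := K.mul_mem (K.inv_mem hx) hx2
      have h3 : x⁻¹ * (n0⁻¹ * x * n0) ∈ V := by
        have : x⁻¹ * (n0⁻¹ * x * n0) = (x⁻¹ * n0⁻¹ * x) * n0 := by group
        rw [this]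
        refine V.mul_mem ?_ n0_mem
        have := (inferInstance : V.Normal).conj_mem n0⁻¹ (V.inv_mem n0_mem) x⁻¹
        simpa using this
      have h4 := htriv _ h2 h3
      rw [inv_mul_eq_one] at h4
      exact h4.symm
    have h5 : x * n0 * x⁻¹ = n0 := by
      have h6 : x * n0 = n0 * x := by
        calc x * n0 = n0 * (n0⁻¹ * x * n0) := by group
          _ = n0 * x := by rw [h1]
      rw [h6]
      group
    apply (ne_one_iff n0_mem).mp n0_ne
    funext y
    apply eq_zero_of_fixed n0.v n0.hv x.b hxV
    intro y
    rw [← conj_v n0_mem y, h5]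

end HH

/-! ### The base sizes of faithful actions -/

theorem HH_nontrivial : Nontrivial HH := ⟨n0, 1, n0_ne⟩

/-- Upper half: the base size of a faithful action is `1`, `2` or `4`. -/
theorem base_size_mem (S : Type) [MulAction HH S] [FaithfulSMul HH S] (n : ℕ)
    (h : IsBaseSize HH S n) : n = 1 ∨ n = 2 ∨ n = 4 := by
  classical
  obtain ⟨⟨B, hBn, hB⟩, hmin⟩ := h
  have hlow : ∀ (B' : Finset S), IsBase HH S B' → n ≤ B'.card := fun B' hB' => hmin ⟨B', rfl, hB'⟩
  have hn0 : n ≠ 0 := by
    intro h0
    rw [h0, Finset.card_eq_zero] at hBn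
    apply n0_ne
    apply hB
    intro x hx
    rw [hBn] at hx
    exact absurd hx (Finset.notMem_empty x)
  by_cases hsmall : ∃ s : S, Nat.card (MulAction.stabilizer HH s ⊓ V : Subgroup HH) ≤ 4
  · obtain ⟨s, hs⟩ := hsmall
    obtain ⟨g, hg⟩ := exists_conj_inf _ hs
    have hbase : IsBase HH S {s, g • s} := by
      intro x hx
      apply hg x
      · exact hx s (by simp)
      · have h1 := hx (g • s) (by simp)
        rw [MulAction.mem_stabilizer_iff, mul_smul, mul_smul, h1, inv_smul_smul]
    have h2 := hlow _ hbase
    have h3 : ({s, g • s} : Finset S).card ≤ 2 := Finset.card_le_two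
    omega
  · push Not at hsmall
    have hrel : ∀ s : S, (MulAction.stabilizer HH s).relIndex V ≤ 2 ∧
        (MulAction.stabilizer HH s).relIndex V ≠ 0 := by
      intro s
      have h1 := hsmall s
      have h2 : Nat.card (MulAction.stabilizer HH s ⊓ V : Subgroup HH) *
          (MulAction.stabilizer HH s).relIndex V = 16 := by
        have h3 := Subgroup.relIndex_mul_relIndex (⊥ : Subgroup HH)
          (MulAction.stabilizer HH s ⊓ V) V bot_le inf_le_right
        rw [Subgroup.relIndex_bot_left, Subgroup.relIndex_bot_left, card_V,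
          Subgroup.inf_relIndex_right] at h3
        exact h3
      set a := Nat.card (MulAction.stabilizer HH s ⊓ V : Subgroup HH)
      set r := (MulAction.stabilizer HH s).relIndex V
      constructor
      · by_contra hr
        push Not at hr
        have h5 : a ∣ 16 := ⟨r, h2.symm⟩
        have h6 : a ≤ 16 := Nat.le_of_dvd (by norm_num) h5
        interval_cases a <;> omega
      · intro h0
        rw [h0] at h2
        omega
    -- a base of size at most four
    have hn4 : n ≤ 4 := by
      have hex : ∃ s : S, ¬ V ≤ MulAction.stabilizer HH s := by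
        by_contra hno
        push Not at hno
        apply n0_ne
        apply FaithfulSMul.eq_of_smul_eq_smul (α := S)
        intro s
        rw [one_smul]
        exact hno s n0_mem
      obtain ⟨s, hs⟩ := hex
      have hle : MulAction.stabilizer HH s ≤ V := by
        intro g hg
        by_contra hgV
        apply hs
        -- the intersection with `V` is nontrivial and normalised by `g`
        have h1 : ∃ u ∈ MulAction.stabilizer HH s, u ∈ V ∧ u ≠ 1 := by
          by_contra hno
          push Not at hno
          have h2 : (MulAction.stabilizer HH s ⊓ V : Subgroup HH) = ⊥ := by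
            rw [eq_bot_iff]
            rintro u ⟨h3, h4⟩
            exact hno u h3 h4
          have h3 := hsmall s
          rw [h2, Subgroup.card_bot] at h3
          omega
        refine V_le_of hgV h1 ?_
        intro u hu _
        exact Subgroup.mul_mem _ (Subgroup.mul_mem _ hg hu) (Subgroup.inv_mem _ hg)
      have hbase : IsBase HH S {s, tau 1 • s, tau 2 • s, tau 3 • s} := by
        intro x hx
        by_contra hx1
        have hxs : x ∈ MulAction.stabilizer HH s := hx s (by simp)
        have hxV := hle hxs
        -- conjugates of `x` in the stabilizer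
        have hc : ∀ k : ZMod 5, x • (tau k • s) = tau k • s →
            (tau k)⁻¹ * x * tau k ∈ MulAction.stabilizer HH s := by
          intro k hk
          rw [MulAction.mem_stabilizer_iff, mul_smul, mul_smul, hk, inv_smul_smul]
        have h1 := hc 1 (hx _ (by simp))
        have h2 := hc 2 (hx _ (by simp))
        have h3 := hc 3 (hx _ (by simp))
        -- the fifth conjugate is the product of the others
        have hv : ∀ k : ZMod 5, ∀ y, ((tau k)⁻¹ * x * tau k).v y = x.v (y + k) := by
          intro k y
          have h4 := conj_v (g := (tau k)⁻¹) hxV y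
          rw [inv_inv] at h4
          rw [h4]
          congr 1
          simp [tau]
        have hmemV : ∀ k : ZMod 5, (tau k)⁻¹ * x * tau k ∈ V := by
          intro k
          have := (inferInstance : V.Normal).conj_mem x hxV (tau k)⁻¹
          simpa using this
        have h4 : (tau 4)⁻¹ * x * tau 4 ∈ MulAction.stabilizer HH s := by
          have h5 : (tau 4)⁻¹ * x * tau 4 = x * ((tau 1)⁻¹ * x * tau 1) *
              ((tau 2)⁻¹ * x * tau 2) * ((tau 3)⁻¹ * x * tau 3) := by
            apply ext_V (hmemV 4)
              (V.mul_mem (V.mul_mem (V.mul_mem hxV (hmemV 1)) (hmemV 2)) (hmemV 3))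
            intro y
            rw [mul_v_V (hmemV 3), mul_v_V (hmemV 2), mul_v_V (hmemV 1), hv, hv, hv, hv]
            have h6 : ∀ y : ZMod 5, x.v (y + 4) =
                x.v (y + 3) + (x.v (y + 2) + (x.v (y + 1) + x.v y)) := by
              have h7 := sum_five x.hv
              have h8 : ∀ a b c d e : ZMod 2, a + b + c + d + e = 0 →
                  (e = d + (c + (b + a)) ∧ a = e + (d + (c + b)) ∧ b = a + (e + (d + c)) ∧
                    c = b + (a + (e + d)) ∧ d = c + (b + (a + e))) := by decide
              obtain ⟨k0, k1, k2, k3, k4⟩ := h8 _ _ _ _ _ h7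
              intro y
              rcases five_cases y with rfl | rfl | rfl | rfl | rfl
              · exact k0
              · exact k1
              · exact k2
              · exact k3
              · exact k4
            exact h6 y
          rw [h5]
          exact Subgroup.mul_mem _ (Subgroup.mul_mem _ (Subgroup.mul_mem _ hxs h1) h2) h3
        -- all conjugates of `x` by powers of `tau` lie in the stabilizer
        have hall : ∀ k : ZMod 5, (tau k)⁻¹ * x * tau k ∈ MulAction.stabilizer HH s := by
          intro k
          rcases five_cases k with rfl | rfl | rfl | rfl | rfl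
          · have : (tau 0)⁻¹ * x * tau 0 = x := by
              apply ext_V (hmemV 0) hxV
              intro y
              rw [hv, add_zero]
            rw [this]
            exact hxs
          · exact h1
          · exact h2
          · exact h3
          · exact h4
        -- the subgroup of elements all of whose conjugates are in the stabilizer
        let W : Subgroup HH :=
          { carrier := {y | y ∈ V ∧ ∀ k : ZMod 5, (tau k)⁻¹ * y * tau k ∈
              MulAction.stabilizer HH s}
            mul_mem' := by
              rintro y z ⟨hy1, hy2⟩ ⟨hz1, hz2⟩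
              refine ⟨V.mul_mem hy1 hz1, fun k => ?_⟩
              have : (tau k)⁻¹ * (y * z) * tau k =
                  ((tau k)⁻¹ * y * tau k) * ((tau k)⁻¹ * z * tau k) := by group
              rw [this]
              exact Subgroup.mul_mem _ (hy2 k) (hz2 k)
            one_mem' := ⟨V.one_mem, fun k => by simp⟩
            inv_mem' := by
              rintro y ⟨hy1, hy2⟩
              refine ⟨V.inv_mem hy1, fun k => ?_⟩
              have : (tau k)⁻¹ * y⁻¹ * tau k = ((tau k)⁻¹ * y * tau k)⁻¹ := by group
              rw [this]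
              exact Subgroup.inv_mem _ (hy2 k) }
        have hW : ∀ y, y ∈ W ↔ (y ∈ V ∧ ∀ k : ZMod 5, (tau k)⁻¹ * y * tau k ∈
              MulAction.stabilizer HH s) := fun y => Iff.rfl
        have htau : tau 1 ∉ V := by
          intro h
          have : (1 : ZMod 5) = 0 := h
          revert this
          decide
        have hVW : V ≤ W := by
          refine V_le_of htau ⟨x, (hW x).mpr ⟨hxV, hall⟩, hxV, hx1⟩ ?_
          intro u hu huV
          obtain ⟨hu1, hu2⟩ := (hW u).mp hu
          refine (hW _).mpr ⟨(inferInstance : V.Normal).conj_mem u hu1 _, fun k => ?_⟩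
          have h5 : (tau k)⁻¹ * (tau 1 * u * (tau 1)⁻¹) * tau k =
              (tau (k - 1))⁻¹ * u * tau (k - 1) := by
            have h6 : tau k = tau 1 * tau (k - 1) := by
              apply HH.ext
              · simp [tau]
              · funext y
                simp [tau]
            rw [h6]
            group
          rw [h5]
          exact hu2 (k - 1)
        apply hs
        intro y hy
        have := ((hW y).mp (hVW hy)).2 0
        have h0 : (tau 0)⁻¹ * y * tau 0 = y := by
          have : tau 0 = 1 := by
            apply HH.ext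
            · rfl
            · rfl
          rw [this]
          simp
        rwa [h0] at this
      exact (hlow _ hbase).trans Finset.card_le_four
    -- three points never suffice
    have hn3 : n ≠ 3 := by
      intro h3
      rw [h3] at hBn
      obtain ⟨x, y, z, -, -, -, rfl⟩ := Finset.card_eq_three.mp hBn
      have h1 : ((MulAction.stabilizer HH x ⊓ MulAction.stabilizer HH y) ⊓
          MulAction.stabilizer HH z).relIndex V ≤ 8 := by
        calc ((MulAction.stabilizer HH x ⊓ MulAction.stabilizer HH y) ⊓
              MulAction.stabilizer HH z).relIndex V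
            ≤ (MulAction.stabilizer HH x ⊓ MulAction.stabilizer HH y).relIndex V *
              (MulAction.stabilizer HH z).relIndex V := Subgroup.relIndex_inf_le
          _ ≤ ((MulAction.stabilizer HH x).relIndex V * (MulAction.stabilizer HH y).relIndex V) *
              (MulAction.stabilizer HH z).relIndex V :=
                Nat.mul_le_mul_right _ Subgroup.relIndex_inf_le
          _ ≤ (2 * 2) * 2 := Nat.mul_le_mul (Nat.mul_le_mul (hrel x).1 (hrel y).1) (hrel z).1
          _ = 8 := by norm_num
      have h2 : (MulAction.stabilizer HH x ⊓ MulAction.stabilizer HH y) ⊓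
          MulAction.stabilizer HH z = ⊥ := by
        rw [eq_bot_iff]
        rintro g ⟨⟨ga, gb⟩, gc⟩
        apply hB
        intro w hw
        simp only [Finset.mem_insert, Finset.mem_singleton] at hw
        rcases hw with rfl | rfl | rfl
        · exact ga
        · exact gb
        · exact gc
      rw [h2, Subgroup.relIndex_bot_left, card_V] at h1
      omega
    omega

end Pool.Agent.Helper36.BaseSize
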