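import Mathlib
import Pool.Agent.Helper36.BaseSize.Main

set_option autoImplicit false

namespace Pool.Agent.Helper36.BaseSize

open HH

/-- The action of `HH` on the ten points `(x, y)`. -/
def act10 : MulAction HH (ZMod 5 × ZMod 2) where
  smul g p := (p.1 + g.b, p.2 + g.v p.1)
  one_smul p := by
    change (p.1 + 0, p.2 + 0) = p
    simp
  mul_smul g h p := by
    change (p.1 + (h.b + g.b), p.2 + (h.v p.1 + g.v (p.1 + h.b))) =
      (p.1 + h.b + g.b, p.2 + h.v p.1 + g.v (p.1 + h.b))
    rw [add_assoc, add_assoc]

/-- The affine action of `HH` on the functions from the integers modulo 5 to those modulo 2. -/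
def act32 : MulAction HH (ZMod 5 → ZMod 2) where
  smul g w := fun x => w (x - g.b) + g.v (x - g.b)
  one_smul w := by
    funext x
    change w (x - 0) + 0 = w x
    simp
  mul_smul g h w := by
    funext x
    change w (x - (h.b + g.b)) + (h.v (x - (h.b + g.b)) + g.v (x - (h.b + g.b) + h.b)) =
      (w (x - g.b - h.b) + h.v (x - g.b - h.b)) + g.v (x - g.b)
    have h1 : x - (h.b + g.b) = x - g.b - h.b := by ring
    have h2 : x - g.b - h.b + h.b = x - g.b := by ring
    rw [h1, h2, add_assoc]

theorem one_mem : 1 ∈ baseSizeSet HH := by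
  refine ⟨HH, inferInstance, inferInstance, inferInstance, ⟨⟨{1}, rfl, ?_⟩, ?_⟩⟩
  · intro g hg
    have := hg 1 (by simp)
    simpa using this
  · rintro k ⟨B, rfl, hB⟩
    by_contra h
    push Not at h
    have h0 : B = ∅ := Finset.card_eq_zero.mp (by omega)
    apply n0_ne
    apply hB
    intro x hx
    rw [h0] at hx
    exact absurd hx (Finset.notMem_empty x)

theorem two_mem : 2 ∈ baseSizeSet HH := by
  classical
  refine ⟨ZMod 5 → ZMod 2, inferInstance, act32, ?_, ⟨⟨{0, w0}, ?_, ?_⟩, ?_⟩⟩
  · refine @FaithfulSMul.mk _ _ act32.toSMul ?_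
    intro g h hgh
    have h0 : ∀ w : ZMod 5 → ZMod 2, ∀ x, w (x - g.b) + g.v (x - g.b) =
        w (x - h.b) + h.v (x - h.b) := fun w x => congrFun (hgh w) x
    have hz : ∀ x, g.v (x - g.b) = h.v (x - h.b) := by
      intro x
      have := h0 (fun _ => 0) x
      simpa using this
    have hb : g.b = h.b := by
      by_contra hne
      have h1 := h0 (fun x => if x = 0 then 1 else 0) g.b
      rw [hz] at h1
      simp only [sub_self, if_true] at h1
      rw [if_neg (sub_ne_zero.mpr hne)] at h1
      have h2 : ∀ a : ZMod 2, 1 + a = 0 + a → False := by decide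
      exact h2 _ h1
    apply HH.ext hb
    funext x
    have := hz (x + g.b)
    rw [← hb] at this
    simpa using this
  · rw [Finset.card_insert_of_notMem, Finset.card_singleton]
    rw [Finset.mem_singleton]
    intro h
    have := congrFun h 0
    revert this
    decide
  · intro g hg
    have h1 : ∀ x, (0 : ZMod 5 → ZMod 2) (x - g.b) + g.v (x - g.b) = 0 :=
      fun x => congrFun (hg 0 (by simp)) x
    have h2 : ∀ x, w0 (x - g.b) + g.v (x - g.b) = w0 x :=
      fun x => congrFun (hg w0 (by simp)) x
    have hv : ∀ x, g.v x = 0 := by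
      intro x
      have := h1 (x + g.b)
      simpa using this
    have hb : g.b = 0 := by
      by_contra hb
      have h3 : ∀ x, w0 (x - g.b) = w0 x := by
        intro x
        rw [← h2 x, hv, add_zero]
      have := eq_zero_of_fixed w0 (by decide) g.b hb h3 0
      revert this
      decide
    exact HH.ext hb (funext hv)
  · rintro k ⟨B, rfl, hB⟩
    by_contra h
    push Not at h
    -- a nontrivial element fixing a given function
    have hfix : ∀ w : ZMod 5 → ZMod 2, ∃ g : HH, g ≠ 1 ∧ ∀ x, w (x - g.b) + g.v (x - g.b) = w x := by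
      intro w
      refine ⟨⟨1, fun x => w (x + 1) + w x, ?_⟩, ?_, ?_⟩
      · rw [Finset.sum_add_distrib, sum_shift]
        have h2 : ∀ a : ZMod 2, a + a = 0 := by decide
        exact h2 _
      · intro h1
        have h2 : (1 : ZMod 5) = 0 := congrArg HH.b h1
        revert h2
        decide
      · intro x
        change w (x - 1) + (w (x - 1 + 1) + w (x - 1)) = w x
        rw [sub_add_cancel]
        have h2 : ∀ a b : ZMod 2, a + (b + a) = b := by decide
        exact h2 _ _
    have hB1 : ∃ w, ∀ x ∈ B, x = w := by
      have hc : B.card ≤ 1 := by omega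
      by_cases hne : B.Nonempty
      · obtain ⟨w, hw⟩ := hne
        exact ⟨w, fun x hx => Finset.card_le_one.mp hc x hx w hw⟩
      · refine ⟨0, fun x hx => absurd ⟨x, hx⟩ hne⟩
    obtain ⟨w, hw⟩ := hB1
    obtain ⟨g, hg1, hg⟩ := hfix w
    apply hg1
    apply hB
    intro x hx
    rw [hw x hx]
    exact funext hg

theorem four_mem : 4 ∈ baseSizeSet HH := by
  classical
  refine ⟨ZMod 5 × ZMod 2, inferInstance, act10, ?_, ⟨⟨{(0, 0), (1, 0), (2, 0), (3, 0)}, ?_, ?_⟩,
    ?_⟩⟩
  · refine @FaithfulSMul.mk _ _ act10.toSMul ?_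
    intro g h hgh
    have h0 : ∀ p : ZMod 5 × ZMod 2, (p.1 + g.b, p.2 + g.v p.1) = (p.1 + h.b, p.2 + h.v p.1) :=
      fun p => hgh p
    apply HH.ext
    · have := congrArg Prod.fst (h0 (0, 0))
      simpa using this
    · funext x
      have := congrArg Prod.snd (h0 (x, 0))
      simpa using this
  · decide
  · intro g hg
    have h0 : ∀ p ∈ ({(0, 0), (1, 0), (2, 0), (3, 0)} : Finset (ZMod 5 × ZMod 2)),
        (p.1 + g.b, p.2 + g.v p.1) = p := fun p hp => hg p hp
    have e0 := h0 (0, 0) (by simp)
    have e1 := h0 (1, 0) (by simp)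
    have e2 := h0 (2, 0) (by simp)
    have e3 := h0 (3, 0) (by simp)
    have hb : g.b = 0 := by
      have := congrArg Prod.fst e0
      simpa using this
    have v0 : g.v 0 = 0 := by simpa using congrArg Prod.snd e0
    have v1 : g.v 1 = 0 := by simpa using congrArg Prod.snd e1
    have v2 : g.v 2 = 0 := by simpa using congrArg Prod.snd e2
    have v3 : g.v 3 = 0 := by simpa using congrArg Prod.snd e3
    have v4 : g.v 4 = 0 := by
      have := sum_five g.hv
      rw [v0, v1, v2, v3] at this
      simpa using this
    exact HH.ext hb (funext (eq_of_five (w := fun _ => 0) v0 v1 v2 v3 v4))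
  · rintro k ⟨B, rfl, hB⟩
    by_contra h
    push Not at h
    -- two positions not used by `B`
    have hcard : (B.image Prod.fst).card < 4 := lt_of_le_of_lt Finset.card_image_le h
    have hcompl : 1 < (Finset.univ \ B.image Prod.fst).card := by
      have h1 := Finset.card_sdiff_add_card_eq_card (Finset.subset_univ (B.image Prod.fst))
      have h2 : (Finset.univ : Finset (ZMod 5)).card = 5 := by decide
      omega
    obtain ⟨i, hi, j, hj, hij⟩ := Finset.one_lt_card.mp hcompl
    have hi' : i ∉ B.image Prod.fst := (Finset.mem_sdiff.mp hi).2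
    have hj' : j ∉ B.image Prod.fst := (Finset.mem_sdiff.mp hj).2
    let v : ZMod 5 → ZMod 2 := fun x => (if x = i then 1 else 0) + (if x = j then 1 else 0)
    have hv : ∑ x, v x = 0 := by
      simp only [v, Finset.sum_add_distrib, Finset.sum_ite_eq', Finset.mem_univ, if_true]
      decide
    have hne : nn v hv ≠ 1 := by
      intro h1
      have h2 : v i = 0 := congrFun (congrArg HH.v h1) i
      simp only [v, if_true, if_neg hij] at h2
      revert h2
      decide
    apply hne
    apply hB
    intro p hp
    have hpi : p.1 ≠ i := by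
      intro h1
      apply hi'
      rw [← h1]
      exact Finset.mem_image_of_mem _ hp
    have hpj : p.1 ≠ j := by
      intro h1
      apply hj'
      rw [← h1]
      exact Finset.mem_image_of_mem _ hp
    change (p.1 + 0, p.2 + v p.1) = p
    simp [v, hpi, hpj]

theorem baseSizeSet_HH : baseSizeSet HH = {1, 2, 4} := by
  ext n
  simp only [Set.mem_insert_iff, Set.mem_singleton_iff]
  constructor
  · rintro ⟨S, _, _, _, h⟩
    exact base_size_mem S n h
  · rintro (rfl | rfl | rfl)
    · exact one_mem
    · exact two_mem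
    · exact four_mem

end Pool.Agent.Helper36.BaseSize
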